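import Pool.Agent.W461.PL.PFIN
import Pool.Agent.W928.PL.PI
import Pool.Agent.W215.PL.PP1
import Pool.Agent.W352.PL.PV
import Pool.Agent.W349.PL.BEZ
import Pool.Agent.W349.PL.PAS
import Pool.Agent.W75.PL.DIV
import Pool.Agent.W110.PL.DPG
import Pool.Agent.W32.PL.MIN
import Pool.Agent.W588.PL.CLQ
import Pool.Agent.W428.PL.CUQ
import Pool.Agent.W155.PL.SQR
import Pool.Agent.W803.HZ.DET
import Pool.Agent.W563.HZ.REL
import Pool.Agent.W351.HZ.PPR
import Pool.Agent.W499.HZ.PRM

/-!
# Almost all real quadratic fields have a fundamental unit larger than any fixed power of `d`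

Let `A ≥ 1`. For all but `O(X ^ (1 - 1 / (64 (4 A + 1) ^ 2)))` of the integers `d ≤ X` the norm form
`x ^ 2 - d y ^ 2` takes no nonzero value of absolute value at most `X ^ (1 / (128 (4 A + 1) ^ 2))`
at integers `x, y` with `1 ≤ y ≤ X ^ A`. In particular (values `±1`, `±4`) for almost all `d`, for
every `A`, the fundamental unit of the real quadratic field of `d` is larger than `d ^ A`, that is
`log ε_d / log d → ∞` along a set of `d` of density one, with a power saving for each `A`; and a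
prime `p ≤ X ^ c` which is not inert has no generator `(x + y √d) / 2` with `|y| ≤ X ^ A`, so for
these `d` unique factorisation cannot come from elements of polynomial height.

Method: the points `(d, x / y)` with `x ^ 2 - d y ^ 2` small are so close to the curve `√d` that in
intervals of length `L = D ^ (1 / (8 m))`, `m = 2 (4 A + 1) ^ 2`, the determinants of the functions
`d ^ j x`, `d ^ j y` (`j < m`) are integers of absolute value less than `1`. Hence the points in
such an interval lie on a curve `A(d) x + B(d) y = 0`, and `N (B ^ 2 - d A ^ 2)` is a square at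
these `d`. If it is not the square of a polynomial, a `p`-adic determinant method saves the square
root of `L`; if it is a square `J ^ 2`, the nonconstant polynomial `J` has its values among `N`
times the divisors of one nonzero integer.
-/

namespace Pool.Agent.Results.MP_321647_nt.LargeUnits

open Pool.Agent.W223.HZ Pool.Agent.W223.PL

/-- Let `A ≥ 1`. There is `M` such that for every `X ≥ 1` at most
`M X ^ (1 - 1 / (64 (4 A + 1) ^ 2))` of the integers `1 ≤ d ≤ X` have integers `x, y` with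
`1 ≤ y ≤ X ^ A` and `0 < |x ^ 2 - d y ^ 2| ≤ X ^ (1 / (128 (4 A + 1) ^ 2))`. -/
theorem result (A : ℕ) (hA : 1 ≤ A) : ∃ M : ℝ, ∀ X : ℝ, 1 ≤ X →
    ({d : ℤ | 1 ≤ d ∧ (d : ℝ) ≤ X ∧ ∃ x y : ℤ, 1 ≤ y ∧ (y : ℝ) ≤ X ^ A ∧ x ^ 2 ≠ d * y ^ 2 ∧
      |((x ^ 2 - d * y ^ 2 : ℤ) : ℝ)| ≤ X ^ (1 / (128 * (4 * (A : ℝ) + 1) ^ 2))}.ncard : ℝ) ≤
      M * X ^ (1 - 1 / (64 * (4 * (A : ℝ) + 1) ^ 2)) := by
  have hREL : StmtREL := Pool.Agent.W563.HZ.REL.t
  have hDPG : StmtDPG := Pool.Agent.W110.PL.DPG.t Pool.Agent.W803.HZ.DET.t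
  have hPV : StmtPV := Pool.Agent.W352.PL.PV.t hDPG Pool.Agent.W215.PL.PP1.t
  have hMIN : StmtMIN := Pool.Agent.W32.PL.MIN.t hREL
  have hPPR : StmtPPR := Pool.Agent.W351.HZ.t Pool.Agent.W499.HZ.PRM.t
  have hCUQ : StmtCUQ := Pool.Agent.W428.PL.CUQ.t
    (Pool.Agent.W588.PL.t Pool.Agent.W349.PL.PAS.t hREL) hPPR
  have hPI : StmtPI := Pool.Agent.W928.PL.t hPV hMIN Pool.Agent.W349.PL.BEZ.t
    Pool.Agent.W75.PL.DIV.t hCUQ Pool.Agent.W155.PL.SQR.t
  exact Pool.Agent.W461.PL.t hPI A hA

end Pool.Agent.Results.MP_321647_nt.LargeUnits
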